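import Pool.Agent.Helper55.FR.GoalsB

/-!
# Project FR, packet CNL: counting labellings
-/

namespace Pool.Agent.Helper33.FR

open Finset Pool.Agent.Helper55.FR

theorem card_lab : Fintype.card Lab = 5 := by decide

theorem det {a b b' : Lab} (h : ¬ spc a b) (h' : ¬ spc a b') : b = b' := by
  revert h h'
  cases a <;> cases b <;> cases b' <;> decide

theorem cnl : CnlStmt := by
  classical
  intro V _ _ n L blk hb ρ P A Y k u hA
  -- the blocks with a special edge
  set C : (V → Lab) → Finset V := fun f =>
    (Y f).filter fun s => ∃ x, blk x = s ∧ blk (n x) = s ∧ x ∈ Spc n f with hC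
  have hCu : ∀ f ∈ A, (C f).card ≤ u := by
    intro f hf
    refine le_trans ?_ (hA f hf).2.2.2
    have : C f ⊆ (Spc n f).image blk := by
      intro s hs
      obtain ⟨_, x, hx, _, hx2⟩ := mem_filter.1 hs
      exact mem_image.2 ⟨x, hx2, hx⟩
    exact (card_le_card this).trans card_image_le
  have hblk : ∀ D : Finset V, (univ.filter fun x => blk x ∈ D).card ≤ 2 * L * D.card := by
    intro D
    have h1 : (univ.filter fun x => blk x ∈ D) ⊆ D.biUnion fun s =>
        univ.filter fun x => blk x = s := by
      intro x hx
      rw [mem_biUnion]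
      exact ⟨blk x, (mem_filter.1 hx).2, mem_filter.2 ⟨mem_univ _, rfl⟩⟩
    refine (card_le_card h1).trans (card_biUnion_le.trans ?_)
    have h2 : ∀ s ∈ D, (univ.filter fun x => blk x = s).card ≤ 2 * L := by
      intro s _
      by_cases h : ∃ v, blk v = s
      · obtain ⟨v, rfl⟩ := h
        exact hb.up v
      · rw [filter_eq_empty_iff.2 fun x _ hx => h ⟨x, hx⟩]
        simp
    refine (sum_le_sum h2).trans ?_
    rw [sum_const, smul_eq_mul, mul_comm]
  have hfib : ∀ (Z D : Finset V), Z.card ≤ k → D.card ≤ u →
      ((A.filter fun f => Y f = Z).filter fun f => C f = D).card ≤ 5 ^ k * 25 ^ (L * u) := by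
    intro Z D hZ hD
    have h1 : ((A.filter fun f => Y f = Z).filter fun f => C f = D).card ≤
        (univ : Finset ((Z → Lab) × ({x // blk x ∈ D} → Lab))).card := by
      refine card_le_card_of_injOn (fun f => (fun s => f s, fun x => f x))
        (fun _ _ => mem_coe.2 (mem_univ _)) ?_
      intro f hf f' hf' he
      simp only [coe_filter, mem_filter, Set.mem_ofPred_eq] at hf hf'
      obtain ⟨⟨hfA, hfY⟩, hfC⟩ := hf
      obtain ⟨⟨hfA', hfY'⟩, hfC'⟩ := hf'
      have he1 : ∀ s ∈ Z, f s = f' s := fun s hs =>
        congrFun (Prod.ext_iff.1 he).1 ⟨s, hs⟩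
      have he2 : ∀ x, blk x ∈ D → f x = f' x := fun x hx =>
        congrFun (Prod.ext_iff.1 he).2 ⟨x, hx⟩
      funext x
      by_cases hx : blk x ∈ Z
      · by_cases hxD : blk x ∈ D
        · exact he2 x hxD
        · obtain ⟨i, hi, hp⟩ := hb.path x
          have hns : ∀ g : V → Lab, Y g = Z → C g = D → ∀ y, blk y = blk x →
              blk (n y) = blk x → ¬ spc (g y) (g (n y)) := by
            intro g hgY hgC y h1 h2 h3
            apply hxD
            rw [← hgC, hC]
            simp only [mem_filter]
            rw [hgY]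
            exact ⟨hx, y, h1, h2, mem_filter.2 ⟨mem_univ _, h3⟩⟩
          have key : ∀ j ≤ i, f ((n ^ j) (blk x)) = f' ((n ^ j) (blk x)) := by
            intro j
            induction j with
            | zero => intro _; exact he1 _ hx
            | succ j ih =>
              intro hj
              have h0 := ih (by omega)
              have e : (n ^ (j + 1)) (blk x) = n ((n ^ j) (blk x)) := by
                rw [pow_succ', Equiv.Perm.mul_apply]
              have p1 := hp j (by omega)
              have p2 := hp (j + 1) hj
              rw [e] at p2 ⊢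
              have q1 := hns f hfY hfC _ p1 p2
              have q2 := hns f' hfY' hfC' _ p1 p2
              rw [← h0] at q2
              exact det q1 q2
          have := key i le_rfl
          rwa [hi] at this
      · rw [(hA f hfA).2.2.1 x (by rw [hfY]; exact hx),
          (hA f' hfA').2.2.1 x (by rw [hfY']; exact hx)]
    refine h1.trans ?_
    rw [card_univ, Fintype.card_prod, Fintype.card_fun, Fintype.card_fun, card_lab,
      Fintype.card_coe, Fintype.card_subtype]
    refine Nat.mul_le_mul (Nat.pow_le_pow_right (by norm_num) hZ) ?_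
    calc 5 ^ (univ.filter fun x => blk x ∈ D).card ≤ 5 ^ (2 * (L * u)) := by
          refine Nat.pow_le_pow_right (by norm_num) ((hblk D).trans ?_)
          calc 2 * L * D.card ≤ 2 * L * u := Nat.mul_le_mul_left _ hD
            _ = 2 * (L * u) := by ring
      _ = 25 ^ (L * u) := by rw [pow_mul]; norm_num
  have hY : ∀ Z ∈ P, (A.filter fun f => Y f = Z).card ≤ 10 ^ k * 25 ^ (L * u) := by
    intro Z _
    rcases (A.filter fun f => Y f = Z).eq_empty_or_nonempty with h | ⟨f₀, hf₀⟩
    · rw [h]; simp
    · have hZk : Z.card ≤ k := by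
        obtain ⟨h1, h2⟩ := mem_filter.1 hf₀
        rw [← h2]
        exact (hA f₀ h1).2.1
      have h1 : (A.filter fun f => Y f = Z).card =
          ∑ D ∈ Z.powerset, ((A.filter fun f => Y f = Z).filter fun f => C f = D).card := by
        refine card_eq_sum_card_fiberwise ?_
        intro f hf
        have hf' := (mem_filter.1 (mem_coe.1 hf)).2
        rw [mem_coe, mem_powerset, ← hf']
        exact filter_subset _ _
      rw [h1]
      have h2 : ∀ D ∈ Z.powerset,
          ((A.filter fun f => Y f = Z).filter fun f => C f = D).card ≤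
            5 ^ k * 25 ^ (L * u) := by
        intro D _
        rcases ((A.filter fun f => Y f = Z).filter fun f => C f = D).eq_empty_or_nonempty with
          h | ⟨f, hf⟩
        · rw [h]; simp
        · obtain ⟨h3, h4⟩ := mem_filter.1 hf
          refine hfib Z D hZk ?_
          rw [← h4]
          exact hCu f (mem_filter.1 h3).1
      refine (sum_le_sum h2).trans ?_
      rw [sum_const, card_powerset, smul_eq_mul]
      calc 2 ^ Z.card * (5 ^ k * 25 ^ (L * u)) ≤ 2 ^ k * (5 ^ k * 25 ^ (L * u)) :=
            Nat.mul_le_mul_right _ (Nat.pow_le_pow_right (by norm_num) hZk)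
        _ = 10 ^ k * 25 ^ (L * u) := by
            rw [← mul_assoc, ← mul_pow]
            norm_num
  have hfin : A.card = ∑ Z ∈ P, (A.filter fun f => Y f = Z).card :=
    card_eq_sum_card_fiberwise fun f hf => mem_coe.2 (hA f (mem_coe.1 hf)).1
  rw [hfin]
  refine (sum_le_sum hY).trans ?_
  rw [sum_const, smul_eq_mul, mul_assoc]

end Pool.Agent.Helper33.FR
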